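import Pool.Agent.G02.StmtsS

/-!
# Squad G02 (MP_ba5221_nt), row GRV: the generic rank, type V (helper67)
-/

set_option autoImplicit false

namespace Pool.Agent.G02.H67

open Polynomial Pool.Agent.NJ Pool.Agent.GT.F

noncomputable section

/-- A point from `X` and `Y`. -/
theorem pt {K : Type} [Field K] [CharZero K] (W : WeierstrassCurve K) (e a b X Y : K)
    (h : Rt1 W e a b) (hY : Y ≠ 0) (hE : Y ^ 2 = X * (X ^ 2 + a * X + b)) :
    W.toAffine.Nonsingular (e + X) ((2 * Y - W.a₁ * (e + X) - W.a₃) / 2) := by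
  have h2 : (2 : K) ≠ 0 := two_ne_zero
  have h4 : (4 : K) ≠ 0 := by norm_num
  obtain ⟨h1, h3, h5⟩ := h
  unfold WeierstrassCurve.b₂ at h1
  unfold WeierstrassCurve.b₄ at h3
  unfold WeierstrassCurve.b₆ at h5
  set y : K := (2 * Y - W.a₁ * (e + X) - W.a₃) / 2 with hy
  have hy2 : 2 * y = 2 * Y - W.a₁ * (e + X) - W.a₃ := by
    rw [hy]; field_simp
  rw [WeierstrassCurve.Affine.nonsingular_iff, WeierstrassCurve.Affine.equation_iff]
  refine ⟨?_, Or.inr ?_⟩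
  · have hY2 : 2 * Y = 2 * y + W.a₁ * (e + X) + W.a₃ := by
      rw [hy2]; ring
    apply mul_left_cancel₀ h4
    have e1 : 4 * Y ^ 2 = (2 * y + W.a₁ * (e + X) + W.a₃) ^ 2 := by
      rw [← hY2]; ring
    rw [hE] at e1
    linear_combination (-1 : K) * e1 - (e + X) ^ 2 * h1 - 2 * (e + X) * h3 - h5
  · intro h6
    apply hY
    apply mul_left_cancel₀ h2
    linear_combination h6 - hy2

theorem grv (hrkl : RklStmt) (hntd : NtdStmt) (htwv : TwvStmt) (hmob : MobStmt)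
    (hevd : EvdStmt) (hdlt : DltStmt) (hevl : GT.F.EvlStmt) : GrvStmt := by
  classical
  intro E e a b x y m hΔ hR hT
  have hch : CharZero (RatFunc ℚ) :=
    charZero_of_injective_algebraMap (R := ℚ[X])
      (IsFractionRing.injective ℚ[X] (RatFunc ℚ))
  obtain ⟨hev1, hev2, -, hev4⟩ := hevl
  have hRg : Rt1 (gen E) (algebraMap ℚ[X] (RatFunc ℚ) e) (algebraMap ℚ[X] (RatFunc ℚ) a)
      (algebraMap ℚ[X] (RatFunc ℚ) b) := hR.map _
  have ha := hT.ha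
  have hb := hT.hb
  simp only [pow_zero, mul_one, map_neg, map_one] at ha hb
  -- the point
  have hm0 : m ≠ 0 := hT.m0
  have hEq : (m ^ 3) ^ 2 = m ^ 2 * ((m ^ 2) ^ 2 + algebraMap ℚ[X] (RatFunc ℚ) a * m ^ 2 +
      algebraMap ℚ[X] (RatFunc ℚ) b) := by
    rw [ha, hb]; ring
  have hns := pt (gen E) _ _ _ (m ^ 2) (m ^ 3) hRg (pow_ne_zero 3 hm0) hEq
  set xP : RatFunc ℚ := algebraMap ℚ[X] (RatFunc ℚ) e + m ^ 2 with hxP
  set yP : RatFunc ℚ := (2 * m ^ 3 - (gen E).a₁ * xP - (gen E).a₃) / 2 with hyP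
  have hyP2 : 2 * yP = 2 * m ^ 3 - (gen E).a₁ * xP - (gen E).a₃ := by
    rw [hyP]; field_simp
  have ga1 : (gen E).a₁ = algebraMap ℚ[X] (RatFunc ℚ) E.a₁ := rfl
  have ga3 : (gen E).a₃ = algebraMap ℚ[X] (RatFunc ℚ) E.a₃ := rfl
  -- the exceptional sets
  obtain ⟨Z1, hZ1⟩ := hevd a b x y (-1) m 0 0 hT
  obtain ⟨Z2, hZ2⟩ := hev4 yP
  obtain ⟨Z3, hZ3⟩ := hmob x y hT.lin (Z1 ∪ Z2)
  -- the parameter
  have hinf : (Set.range (fun n : ℕ => ((2 * (2 * n + 1) : ℕ) : ℚ))).Infinite := by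
    apply Set.infinite_range_of_injective
    intro n1 n2 hn
    simp only at hn
    have := Nat.cast_injective hn
    omega
  obtain ⟨τ, hτ1, hτ2⟩ := hinf.exists_notMem_finset Z3
  obtain ⟨n, hn⟩ := hτ1
  simp only at hn
  obtain ⟨t, ht1, ht2, ht3⟩ := hZ3 τ hτ2
  have ht1a : t ∉ Z1 := fun h => ht1 (Finset.mem_union_left _ h)
  have ht1b : t ∉ Z2 := fun h => ht1 (Finset.mem_union_right _ h)
  obtain ⟨hμ0, hmd, hat, hbt⟩ := hZ1 t ht1a τ ht3 ht2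
  obtain ⟨hyd, -⟩ := hZ2 t ht1b
  set μ : ℚ := ev t m with hμ
  simp only [pow_zero, mul_one] at hat hbt
  set N : ℤ := 2 * (2 * n + 1) with hN
  have hτN : τ = (N : ℚ) := by
    rw [← hn, hN]; push_cast; ring
  have hN0 : 1 ≤ N := by omega
  have hN8 : N ^ 2 - 4 * N ≠ 0 := by
    intro h
    have h1 : N * (N - 4) = 0 := by linear_combination h
    rcases mul_eq_zero.1 h1 with h2 | h2 <;> omega
  have hat' : a.eval t = ((-N : ℤ) : ℚ) * μ ^ 2 := by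
    rw [hat, hτN]; push_cast; ring
  have hbt' : b.eval t = (N : ℚ) * μ ^ 4 := by
    rw [hbt, hτN]; ring
  have hRf : Rt1 (fib E t) (e.eval t) (a.eval t) (b.eval t) := hR.map (evalRingHom t)
  have hNq : (N : ℚ) ≠ 0 := by
    have : N ≠ 0 := by omega
    exact_mod_cast this
  have hN8q : (N : ℚ) ^ 2 - 4 * N ≠ 0 := by exact_mod_cast hN8
  have hΔt : (fib E t).Δ ≠ 0 := by
    rw [hdlt ℚ (fib E t) _ _ _ hRf, hat', hbt']
    have e1 : (16 : ℚ) * (N * μ ^ 4) ^ 2 * ((((-N : ℤ) : ℚ) * μ ^ 2) ^ 2 - 4 * (N * μ ^ 4)) =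
        16 * (N * μ ^ 4) ^ 2 * (((N : ℚ) ^ 2 - 4 * N) * μ ^ 4) := by
      push_cast; ring
    rw [e1]
    exact mul_ne_zero (mul_ne_zero (by norm_num) (pow_ne_zero 2 (mul_ne_zero hNq
      (pow_ne_zero 4 hμ0)))) (mul_ne_zero hN8q (pow_ne_zero 4 hμ0))
  -- values
  obtain ⟨-, -, -, -, hm2d, hm2⟩ := hev1 t m m hmd hmd
  obtain ⟨-, -, -, -, hm3d, hm3⟩ := hev1 t (m * m) m hm2d hmd
  obtain ⟨hed, he⟩ := hev2 t e
  obtain ⟨hxd, hx, -, -, -, -⟩ := hev1 t (algebraMap ℚ[X] (RatFunc ℚ) e) (m * m) hed hm2d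
  have hxPe : xP = algebraMap ℚ[X] (RatFunc ℚ) e + m * m := by
    rw [hxP]; ring
  rw [← hxPe] at hxd hx
  obtain ⟨h2d, h2e⟩ := hev2 t 2
  have h2a : algebraMap ℚ[X] (RatFunc ℚ) 2 = 2 := map_ofNat _ 2
  obtain ⟨h1d, h1e⟩ := hev2 t E.a₁
  obtain ⟨h3d, h3e⟩ := hev2 t E.a₃
  obtain ⟨-, -, -, -, q1d, q1⟩ := hev1 t _ yP h2d hyd
  obtain ⟨-, -, -, -, q2d, q2⟩ := hev1 t _ xP h1d hxd
  obtain ⟨q3d, q3, -, -, -, -⟩ := hev1 t _ _ q1d q2d
  obtain ⟨q4d, q4, -, -, -, -⟩ := hev1 t _ _ q3d h3d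
  obtain ⟨-, -, -, -, q5d, q5⟩ := hev1 t _ (m * m * m) h2d hm3d
  have hid : algebraMap ℚ[X] (RatFunc ℚ) 2 * yP + algebraMap ℚ[X] (RatFunc ℚ) E.a₁ * xP +
      algebraMap ℚ[X] (RatFunc ℚ) E.a₃ = algebraMap ℚ[X] (RatFunc ℚ) 2 * (m * m * m) := by
    rw [h2a, ← ga1, ← ga3]
    linear_combination hyP2
  have hval : 2 * ev t yP + (fib E t).a₁ * ev t xP + (fib E t).a₃ = 2 * μ ^ 3 := by
    have f1 : (fib E t).a₁ = E.a₁.eval t := rfl
    have f3 : (fib E t).a₃ = E.a₃.eval t := rfl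
    have e2 : (2 : ℚ[X]).eval t = 2 := by simp
    rw [hid, q5, hm3, hm2, h2e, e2, q3, q1, q2, h1e, h3e, h2e, e2, ← hμ] at q4
    rw [f1, f3]
    linear_combination -q4
  -- conclusion
  refine hrkl E t (.some xP yP hns) hΔt ?_
  intro sp hsp k hk
  obtain ⟨h', hsp'⟩ := hsp.1 xP yP hns hxd
  rw [hsp']
  have hR2 : Rt1 (fib E t) (e.eval t) (((-N : ℤ) : ℚ) * μ ^ 2) ((N : ℚ) * μ ^ 4) := by
    rw [← hat', ← hbt']; exact hRf
  refine hntd (fib E t) (e.eval t) μ (-N) N hμ0 hR2 (by omega) ?_ ?_ _ _ h' ?_ k hk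
  · intro h
    apply hN8
    linear_combination h
  · apply htwv
    left
    omega
  · rw [hval]
    exact mul_ne_zero two_ne_zero (pow_ne_zero 3 hμ0)

end

end Pool.Agent.G02.H67
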