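import Pool.Agent.G02.Stmts

/-!
# Squad G02, row SB1: recipe S, `m = 5`, the curve `S`
-/

set_option autoImplicit false

namespace Pool.Agent.G02.H67

open Pool.Agent.NJ

theorem sb1 (hsus : SusStmt) (hrls : RlsStmt) (hla : LaStmt) (hld : LdStmt) (hrea : ReaStmt)
    (hsqf : SQFStmt) : Sb1Stmt := by
  intro k p q r hr5 hRS hkr d M e N B hQ hpd
  obtain ⟨fp⟩ : Nonempty (Fact p.Prime) := ⟨⟨hRS.pp⟩⟩
  obtain ⟨fq⟩ : Nonempty (Fact q.Prime) := ⟨⟨hRS.pq⟩⟩
  obtain ⟨hr8, s, S6⟩ := hrls.2 k p q r hRS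
  have hsup := (hsus 5 k p q r hRS d M e N B).1 hQ
  have hr : (r : ℤ) = q - 2 * p := hRS.hr
  have hppos : (0 : ℤ) < p := by exact_mod_cast hRS.pp.pos
  have hqpos : (0 : ℤ) < q := by exact_mod_cast hRS.pq.pos
  have hrpos : (0 : ℤ) < r := by exact_mod_cast hRS.pr.pos
  have hk0 : k ≠ 0 := by
    rintro rfl
    exact S6.kp (dvd_zero _)
  have hk2 : 0 < k ^ 2 := by positivity
  -- primes in ℤ
  have Pp : Prime (p : ℤ) := Nat.prime_iff_prime_int.mp hRS.pp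
  have Pq : Prime (q : ℤ) := Nat.prime_iff_prime_int.mp hRS.pq
  have Pr : Prime (r : ℤ) := Nat.prime_iff_prime_int.mp hRS.pr
  have hpq : ¬ (p : ℤ) ∣ q := by
    intro h
    exact S6.npq ((Nat.prime_dvd_prime_iff_eq hRS.pp hRS.pq).mp (by exact_mod_cast h))
  have hpr : ¬ (p : ℤ) ∣ r := by
    intro h
    exact S6.npr ((Nat.prime_dvd_prime_iff_eq hRS.pp hRS.pr).mp (by exact_mod_cast h))
  have hp2 : ¬ (p : ℤ) ∣ 2 := by
    intro h
    exact S6.p2 ((Nat.prime_dvd_prime_iff_eq hRS.pp Nat.prime_two).mp (by exact_mod_cast h))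
  -- the real place
  have hdpos : 0 < d := by
    by_contra hd
    have hd0 : d ≠ 0 := by
      rintro rfl
      exact hpd (dvd_zero _)
    have hdneg : d < 0 := lt_of_le_of_ne (not_lt.mp hd) hd0
    have hb : 0 < 2 * k ^ 2 * (p : ℤ) ^ 3 * q ^ 3 * r ^ 2 := by positivity
    have h := (hrea _ _ _ _ _ _ _ hQ hdneg hb).2
    have e1 : (-(4 * k * (p : ℤ) ^ 2 * q * r)) ^ 2 - 4 * (2 * k ^ 2 * (p : ℤ) ^ 3 * q ^ 3 * r ^ 2)
        = -(8 * k ^ 2 * p ^ 3 * q ^ 2 * r ^ 3) := by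
      have hq' : (q : ℤ) = r + 2 * p := by linarith
      rw [hq']; ring
    rw [e1] at h
    have h2 : 0 < 8 * k ^ 2 * (p : ℤ) ^ 3 * q ^ 2 * r ^ 3 := by positivity
    linarith
  -- LA at p
  have hp1 : legendreSym p d = 1 := by
    refine hla _ _ _ _ _ _ _ hQ p S6.p2 hpd (Or.inr ⟨?_, ?_, ?_⟩)
    · exact ⟨-(4 * k * q * r), by ring⟩
    · exact ⟨2 * k ^ 2 * q ^ 3 * r ^ 2, by ring⟩
    · rintro ⟨c, hc⟩
      have hp3 : (p : ℤ) ^ 3 ≠ 0 := by positivity
      have h1 : 2 * k ^ 2 * (q : ℤ) ^ 3 * r ^ 2 = p * c := by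
        apply mul_left_cancel₀ hp3
        linear_combination hc
      have h2 : (p : ℤ) ∣ 2 * k ^ 2 * (q : ℤ) ^ 3 * r ^ 2 := ⟨c, h1⟩
      rcases Pp.dvd_mul.mp h2 with h | h
      · rcases Pp.dvd_mul.mp h with h | h
        · rcases Pp.dvd_mul.mp h with h | h
          · exact hp2 h
          · exact S6.kp (Pp.dvd_of_dvd_pow h)
        · exact hpq (Pp.dvd_of_dvd_pow h)
      · exact hpr (Pp.dvd_of_dvd_pow h)
  -- LD at r
  have hss : s * (-s) = -1 := by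
    rcases S6.one with h | h <;> rw [h] <;> norm_num
  have hz : ∀ (l : ℕ) [Fact l.Prime] (a : ℤ), ¬ (l : ℤ) ∣ a → legendreSym l (a ^ 2) = 1 := by
    intro l _ a ha
    apply legendreSym.sq_one'
    rwa [Ne, ZMod.intCast_zmod_eq_zero_iff_dvd]
  have hrp : ¬ (r : ℤ) ∣ p := by
    intro h
    exact S6.npr ((Nat.prime_dvd_prime_iff_eq hRS.pr hRS.pp).mp (by exact_mod_cast h)).symm
  have hrq : ¬ (r : ℤ) ∣ q := by
    intro h
    exact S6.nqr ((Nat.prime_dvd_prime_iff_eq hRS.pr hRS.pq).mp (by exact_mod_cast h)).symm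
  have hr2 : ¬ (r : ℤ) ∣ 2 := by
    intro h
    exact S6.r2 ((Nat.prime_dvd_prime_iff_eq hRS.pr Nat.prime_two).mp (by exact_mod_cast h))
  have hsym : legendreSym r (2 * (-(4 * k * (p : ℤ) ^ 2 * q)) * (-(8 * k ^ 2 * p ^ 3 * q ^ 2)))
      = -1 := by
    have e1 : 2 * (-(4 * k * (p : ℤ) ^ 2 * q)) * (-(8 * k ^ 2 * p ^ 3 * q ^ 2))
        = (2 ^ 3 * k * p ^ 2 * q) ^ 2 * (k * (p * q)) := by ring
    have h1 : ¬ (r : ℤ) ∣ 2 ^ 3 * k * p ^ 2 * q := by
      intro h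
      rcases Pr.dvd_mul.mp h with h | h
      · rcases Pr.dvd_mul.mp h with h | h
        · rcases Pr.dvd_mul.mp h with h | h
          · exact hr2 (Pr.dvd_of_dvd_pow h)
          · exact S6.kr h
        · exact hrp (Pr.dvd_of_dvd_pow h)
      · exact hrq h
    rw [e1, legendreSym.mul, hz r _ h1, legendreSym.mul, legendreSym.mul, hkr, S6.hrP, S6.hrQ]
    linarith
  obtain ⟨hrd, hr1⟩ := hld _ _ _ _ _ _ _ hQ r (-(4 * k * (p : ℤ) ^ 2 * q))
    (2 * k ^ 2 * p ^ 3 * q ^ 3) (-(8 * k ^ 2 * p ^ 3 * q ^ 2)) S6.r2 (by ring) (by ring)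
    (by
      have hq' : (q : ℤ) = r + 2 * p := by linarith
      rw [hq']; ring) hsym
  -- the shape of d
  have hshape := (hsqf d q r hQ.sqf hRS.pq hRS.pr S6.q2 S6.r2 S6.nqr).1 (by
    intro l hl hld'
    rcases hsup l hl hld' with h | h | h | h
    · exact Or.inl h
    · exact absurd (h ▸ hld') hpd
    · exact Or.inr h
    · exact absurd (h ▸ hld') hrd)
  obtain ⟨ε, hε, hd⟩ := hshape
  have hε1 : ε = 1 := by
    rcases hε with h | h
    · exact h
    · exfalso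
      subst h
      rcases hd with h | h | h | h <;> nlinarith
  subst hε1
  have h2p : legendreSym p 2 = -1 := by
    rw [legendreSym.at_two S6.p2]
    have h8 : ((p : ℕ) : ZMod 8) = 5 := by
      have := hRS.mp
      have h : ((p : ℕ) : ZMod 8) = ((p % 8 : ℕ) : ZMod 8) := by simp
      rw [h, this]; rfl
    rw [h8]; decide
  have h2r : legendreSym r 2 = -1 := by
    rw [legendreSym.at_two S6.r2]
    have h8 : ((r : ℕ) : ZMod 8) = 3 := by
      have h : ((r : ℕ) : ZMod 8) = ((r % 8 : ℕ) : ZMod 8) := by simp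
      rw [h, hr8]; rfl
    rw [h8]; decide
  rcases hd with h | h | h | h
  · exact h
  · exfalso
    rw [h, one_mul, h2p] at hp1
    norm_num at hp1
  · exfalso
    rw [h, one_mul] at hp1 hr1
    rw [S6.hpQ] at hp1
    rw [S6.hrQ, hp1] at hr1
    norm_num at hr1
  · exfalso
    rw [h, one_mul, legendreSym.mul] at hp1 hr1
    rw [S6.hpQ, h2p] at hp1
    rw [S6.hrQ, h2r] at hr1
    have : s = -1 := by linarith
    rw [this] at hr1
    norm_num at hr1

end Pool.Agent.G02.H67
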